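import Pool.Agent.Run7.h821.GfT
import Pool.Agent.W619.TW.CP
import Pool.Agent.W300.PG.TRGE

/-!
# The conjecture of Campana and Peternell for the images of fibrations by curves

Let `V` be a smooth projective variety over `ℂ` of dimension `n + 1` and let `V ⇢ X` be a fibration by
curves; the curves are arbitrary and may vary in moduli as much as possible. Suppose that `X` is given
as the image of `V` in a product of varieties `X 0 × ... × X (k - 1)`, and let `𝓛 i` be linear systems
on the `X i` (linear systems of line bundles `L i`; in this file `H i` is the set of the quotients of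
their sections by a fixed one). Suppose that

* there are as many forms `ω j`, sections of `K_V - ∑ L i`, linearly independent over the function
  field of `X`, as the genus of the curves.

Let `V ⇢ W` be any dominant rational map of finite degree. It need not be related to the fibration,
and its ramification is arbitrary. Let `W_i` be the image of `V` in `W × X 0 × ... × X (i - 1)`. A
point of `W_i` has `d i` points of `X i` below it, i.e. such that `V` has a point with these images in
`W_i` and `X i`. The condition is

* (Two) the points of `X i` below two points of `W_i` impose independent conditions on `𝓛 i`,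

for instance if `𝓛 i` separates `2 d i` points, and also if `𝓛 i` consists of the forms of degree
`M i` in a projective space which contains `X i` and `M i` is at least `2 ρ i + 1`, where `ρ i` is the
regularity index of the points of `X i` below a point of `W_i` (the last statement is part of
`MP_fa3f7f_ag.ImagesOfFibrations`).

**Theorem.** All smooth projective varieties birational to `W` satisfy the conjecture of Campana and
Peternell: if `K_W ∼ A + B` where `A` is an effective `ℚ`-divisor (or any `ℚ`-divisor) and `B` is
pseudo-effective, then `κ(W) ≥ κ(A)`.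

Proof. Let `W'` be the image of `V` in `W × X`, fibred over `X` by images of the curves, of geometric
genus `γ`. The traces of the forms `ω j` generate the regular differentials of these images. If
`γ = 0` then `W` is uniruled, and its numerical dimension is `-∞`. If `γ ≥ 1` then the separation
argument over two fibres of `V ⇢ W` (with the forms `s 0 ... s (k - 1) ω j`, `s i ∈ 𝓛 i`) shows that
the image of the canonical map of `W` has dimension at least `dim X = dim W - 1`, and that `W` is of
general type if `γ ≥ 2`; and `ν(W) ≤ ν(W') ≤ dim X + ν(elliptic curve) = dim X` if `γ = 1`. So the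
Kodaira dimension and the numerical dimension of `W` agree, and the sections of `m A` times sections
of `m B + H`, `H` ample, are sections of `m K_W + H`.

The function-field language of the starting repository is used: `K`, `L` and `F i` are the function
fields of `V`, `W` and `X i`.
-/

set_option autoImplicit false
set_option linter.overlappingInstances false
set_option maxHeartbeats 4000000
set_option synthInstance.maxHeartbeats 400000

open FF Module IntermediateField Pool.Agent Pool.Agent.W602.GT
open Pool.Agent.W619 (TW.IsPsefRest TW.DivKodGe TW.KodGe)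

namespace Pool.Agent.Results.MP_370cf3_ag.ImagesOfCurveFibrations

section

variable {K : Type} [Field K] [Algebra ℂ K] {L : Type} [Field L] [Algebra ℂ L] [Algebra L K]
  [IsScalarTower ℂ L K]

/-- Let `K` be the function field of a variety `V`, and let `M` and `E` be the function fields of
varieties `W_i` and `X_i` which are dominated by `V`. The points of `X_i` below the (generic) point
`α` of `W_i`, with coordinates in the field `Ω`: there is a point `τ` of `V` with the image `α` in
`W_i` and the image `σ` in `X_i`. -/
def Below (M : IntermediateField L K) (E : IntermediateField ℂ K) {Ω : Type} [Field Ω]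
    [Algebra ℂ Ω] (α : M →ₐ[ℂ] Ω) : Set (E →ₐ[ℂ] Ω) :=
  {σ | ∃ τ : K →ₐ[ℂ] Ω, (∀ z : M, τ z = α z) ∧ ∀ z : E, τ z = σ z}

/-- (Two) The points of `X_i` below two points of `W_i` impose independent conditions on the linear
system `H`: a relation `∑ c σ * σ f = 0` for all `f ∈ H` is trivial. -/
def TwoFibres (M : IntermediateField L K) (E : IntermediateField ℂ K) (H : Set E) : Prop :=
  ∀ (Ω : Type) [Field Ω] [Algebra ℂ Ω] [IsAlgClosed Ω] (α β : M →ₐ[ℂ] Ω)
    (A : Finset (E →ₐ[ℂ] Ω)), (∀ σ ∈ A, σ ∈ Below M E α ∨ σ ∈ Below M E β) →
    ∀ c : (E →ₐ[ℂ] Ω) → Ω, (∀ f ∈ H, ∑ σ ∈ A, c σ * σ f = 0) → ∀ σ ∈ A, c σ = 0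

/-- The linear system `H` on the variety with the function field `E` separates `r` points: at most
`r` different points impose independent conditions. -/
def SeparatesPoints (E : IntermediateField ℂ K) (H : Set E) (r : ℕ) : Prop :=
  ∀ (Ω : Type) [Field Ω] [Algebra ℂ Ω] [IsAlgClosed Ω] (A : Finset (E →ₐ[ℂ] Ω)), A.card ≤ r →
    ∀ c : (E →ₐ[ℂ] Ω) → Ω, (∀ f ∈ H, ∑ σ ∈ A, c σ * σ f = 0) → ∀ σ ∈ A, c σ = 0

/-- The number of the points of `X_i` below a point of `W_i`: the degree over `M` of the compositum. -/
noncomputable def deg (M : IntermediateField L K) (E : IntermediateField ℂ K) : ℕ :=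
  finrank M (IntermediateField.adjoin M (E : Set K))

end

/-- The geometric genus of the varieties of dimension `w` over `k` with the function field `K` is at
most `g`: any `g + 1` canonical forms which are regular at all prime divisors are linearly
dependent over `k`. -/
def GenusLe (k K : Type) [Field k] [Field K] [Algebra k K] (w g : ℕ) : Prop :=
  ∀ ω : Fin (g + 1) → (Fin w → Derivation k K K) → K, (∀ j, IsPluri 1 (ω j)) →
    (∀ j (P : Place k K), Divisorial w P → RegAt P (ω j)) →
    ∃ c : Fin (g + 1) → k, c ≠ 0 ∧ ∀ D, ∑ j, algebraMap k K (c j) * ω j D = 0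

section

variable {K : Type} [Field K] [Algebra ℂ K]

/-- Let `B` and `K` be the function fields of `X` and of a variety which is fibred over `X` by
curves. The genus of the geometric generic fibre is at most `g`. The function field of the geometric
generic fibre is the field generated by `K` over the algebraic closure of `B`. -/
def FibreGenusLe (B : IntermediateField ℂ K) (g : ℕ) : Prop :=
  GenusLe (algebraicClosure B (AlgebraicClosure K))
    (IntermediateField.adjoin (algebraicClosure B (AlgebraicClosure K))
      (algebraMap K (AlgebraicClosure K) '' (⊤ : IntermediateField ℂ K))) 1 g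

variable {k : ℕ}

/-- The form `ω` is a section of `K_V - ∑ L i`: its products with sections of the linear systems are
regular at all prime divisors. -/
def IsTwisted {F : Fin k → IntermediateField ℂ K} (H : ∀ i, Set (F i)) (N : ℕ)
    (ω : (Fin N → Derivation ℂ K K) → K) : Prop :=
  IsPluri 1 ω ∧ ∀ f : ∀ i, F i, (∀ i, f i ∈ H i) → ∀ P : Place ℂ K, Divisorial N P →
    RegAt P (fun D => (∏ i, (f i : K)) * ω D)

/-- The function field of the image `X` of `V` in the product of the `X i`. -/
noncomputable def Base (F : Fin k → IntermediateField ℂ K) : IntermediateField ℂ K := ⨆ i, F i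

/-- The function field of the image `W_i` of `V` in the product of `W` and `X 0, ..., X (i - 1)`. -/
noncomputable def Img (F : Fin k → IntermediateField ℂ K) (L : Type) [Field L] [Algebra L K]
    (i : ℕ) : IntermediateField L K :=
  IntermediateField.adjoin L {z | ∃ l : Fin k, l.val < i ∧ z ∈ F l}

theorem img_eq (F : Fin k → IntermediateField ℂ K) (L : Type) [Field L] [Algebra L K] (i : ℕ) :
    N145.PC.MF F L (N145.PC.Js k i) = Img F L i := by
  unfold N145.PC.MF N145.PC.MJ Img
  congr 1
  ext z
  simp only [Set.mem_iUnion, N145.PC.mem_Js, Set.mem_range, exists_prop]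
  constructor
  · rintro ⟨l, hl, z, rfl⟩
    exact ⟨l, hl, z.2⟩
  · rintro ⟨l, hl, hz⟩
    exact ⟨l, hl, ⟨z, hz⟩, rfl⟩

end

/-- **The conjecture of Campana and Peternell for the images of fibrations by curves.** Let `K` be the
function field of a variety `V` of dimension `n + 1`, let `F i`, `i < k`, be the function fields of
varieties `X i` which are dominated by `V`, such that the image `X` of `V` in the product of the `X i`
has dimension `n` and its function field is algebraically closed in `K`. Let `H i` be linear systems
on the `X i`, let the genus of the geometric generic fibre of `V ⇢ X` be at most `r`, and let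
`ω 1, ..., ω r` be sections of `K_V - ∑ L i` which are linearly independent over the function field of
`X`. Let `L ⊆ K` be the function field of a variety `W`, and let the extension be finite. Let
(Two) hold for all `i`; in particular it holds if `H i` separates `2 d i` points. If `q K_W - A` is
pseudo-effective for a divisor `A` and some `q ≥ 1` then `κ(A) ≤ κ(W)`. -/
theorem result {K : Type} [Field K] [Algebra ℂ K] [Algebra.EssFiniteType ℂ K] {n k r : ℕ}
    (hK : Algebra.trdeg ℂ K = (n + 1 : ℕ)) (F : Fin k → IntermediateField ℂ K)
    (hb : Algebra.trdeg ℂ (Base F) = n) (hcl : ∀ z : K, IsAlgebraic (Base F) z → z ∈ Base F)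
    (H : ∀ i, Set (F i)) (hH : ∀ i, 1 ∈ H i) (hr : FibreGenusLe (Base F) r)
    (ω : Fin r → (Fin (n + 1) → Derivation ℂ K K) → K) (hω : ∀ j, IsTwisted H (n + 1) (ω j))
    (hind : ∀ b : Fin r → Base F, (∀ D, ∑ j, (b j : K) * ω j D = 0) → b = 0)
    (L : Type) [Field L] [Algebra ℂ L] [Algebra L K] [IsScalarTower ℂ L K]
    [FiniteDimensional L K] (hT : ∀ i : Fin k, TwoFibres (Img F L i) (F i) (H i) ∨
      SeparatesPoints (F i) (H i) (2 * deg (Img F L i) (F i))) :
    ∀ q : ℕ, 1 ≤ q → ∀ a : Place ℂ L → ℤ,
      TW.IsPsefRest ℂ L (n + 1) (fun _ => False) q a → ∀ h : ℕ, TW.DivKodGe ℂ L (n + 1) a h →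
        TW.KodGe ℂ L (n + 1) (fun _ => False) h := by
  classical
  have hL : Algebra.trdeg ℂ L = (n + 1 : ℕ) := Pool.Agent.Y184.NT.trdeg_below (K := K) hK
  have hessL : Algebra.EssFiniteType ℂ L := Pool.Agent.TH466.QG.ess_below (K := K)
  have hT' : ∀ i : Fin k, _root_.Run7.h821.Two (N145.PC.MF F L (N145.PC.Js k i)) (F i) (H i) := by
    intro i
    rw [img_eq]
    rcases hT i with h | h
    · exact h
    · exact _root_.Run7.h821.two_of_sep le_rfl h
  have hreg : ∀ j (P : Place ℂ K), Divisorial (n + 1) P → RegAt P (ω j) := by
    intro j P hP D hD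
    have h1 := (hω j).2 (fun _ => 1) hH P hP D hD
    simpa using h1
  obtain ⟨h1, -, h3, h4, h5⟩ := _root_.Run7.h821.curves (L := L) hK (F := F) (H := H)
    (B := Base F) rfl hb hcl hr hω hreg hind
  have hkod : ∀ d, N145.SX.CanGe L (n + 1) d → TW.KodGe ℂ L (n + 1) (fun _ => False) d := by
    rintro d ⟨η, hη, D, hD0, hDi⟩
    have hcan : _root_.Run7.h821.CanonicalImage L (n + 1) d := by
      refine ⟨η, hη, D, fun l => ?_, hDi⟩
      refine Fin.cases hD0 (fun i => ?_) l
      intro h0
      have h6 := hDi.ne_zero i
      rw [h0, zero_div] at h6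
      exact h6 rfl
    exact Pool.Agent.W300.PG.TRGE.main ℂ L (n + 1) d hL hcan.kod
  intro q hq a hps h hA
  by_cases hg0 : _root_.Run7.h821.FibreGenusLe (Base F)
      ((N145.PC.MF F L Finset.univ).restrictScalars ℂ) 0
  · exact absurd hA (Pool.Agent.W619.TW.cp_of_neg
      (Pool.Agent.W619.Y.uniruled_neg (n + 1) hL (h1 hg0)).2 hq hps)
  by_cases hg1 : _root_.Run7.h821.FibreGenusLe (Base F)
      ((N145.PC.MF F L Finset.univ).restrictScalars ℂ) 1
  · exact Pool.Agent.W619.TW.cp_of_num (hkod n (h4 hT' hg0)) (h3 hg1 hg0) hq hps hA
  · obtain ⟨z, hz⟩ := Pool.Agent.W636.PG.exists_basis ℂ L (n + 1) hL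
    exact Pool.Agent.W619.TW.cp_of_num (hkod (n + 1) (h5 hT' hg1))
      (R885.num_top hz (Pool.Agent.W824.PG.fin_adj hessL z hz)) hq hps hA

end Pool.Agent.Results.MP_370cf3_ag.ImagesOfCurveFibrations
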