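import Pool.Agent.Run7.h260.TW.Prd
import Pool.Agent.N162.GQ.CP

/-!
# The conjecture of Campana and Peternell for the images of towers over products with a curve

A product tower of dimension `w` with the bound `s` (`ProductTower 3 w K s`) is a sequence of dominant
rational maps of finite degree `V = V_0 ⇢ V_1 ⇢ ... ⇢ V_k` between varieties of dimension `w` over `ℂ`. At
the step `V_i ⇢ V_(i + 1)`, of degree `b_i`, the canonical bundle of `V_i` is positive relative to
`V_(i + 1)` (`Positive`): `V_(i + 1)` is the image of `V_i` in a projective space, and for all varieties
`Y'`, `V_i ⇢ Y' ⇢ V_(i + 1)`, of degree `> 1` over `V_(i + 1)` there is a section of `K_(V_i) - m H` with a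
nonzero trace on `Y'`, where `s_i ≤ [V_i : Y'] (m + 1)`; for instance cyclic coverings of prime degree
branched along a sufficiently positive divisor. The bounds are `s_0 = s`, `s_(i + 1) = ⌊s_i / b_i⌋`. The
last variety `V_k`, with the bound `s_k`, is

* a product `X_0 × ... × X_(t - 1) × C` (`IsProduct`), where `C` is any smooth projective curve, and each
  `X_i` has a number `g_i > s_k` and is either a curve of gonality at least `g_i` or a variety in
  projective `(M + 1)`-space which is cut out by equations of degree at most `D` and has the regular
  canonical forms `P(x) ω₀` for all forms `P` of degree `m` (for instance a smooth complete intersection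
  of codimension at least two), `m ≥ 7 N + 4`, `(M + 1) N < m + M + 2`, `D + N ≤ m + 2`,
  `g_i ≤ (N + 1) (m + 2 - N)` for some `N` (`Factor`); `t = 0` is allowed; or
* a smooth hypersurface of degree `d` in `ℙ^(w + 1)`, where for some `N` one has `d ≥ 7 N + w + 6`,
  `d > (w + 1) N`, `d > 3 (N + w - 1)` and `s_k < (N + 1) (d - w - N)`; or a variety with a generically
  finite map of any degree to a variety of low degree as above, `s_k < (N + 1) (m + 2 - N)`; or
* any uniruled variety, without condition on `s_k`.

**Theorem.** Let `V` be the first variety of such a tower with the bound `2 r`, and let `V ⇢ W` be a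
dominant rational map of degree `r`. The map is arbitrary: not a quotient by a group, not related to the
tower, with any ramification. Let `X` be a smooth projective variety birational to `W`, let `A` be a
divisor on `X` (or on a blow-up of `X`), and `q ≥ 1` such that `q K_X - A` is pseudo-effective. Then
`κ(X) ≥ κ(A)`.

So Q1 has a positive answer for all these `X`: if `K_X ∼ A + B` (over `ℚ`) with `A` effective and `B`
pseudo-effective then `κ(X) ≥ κ(A)`.

Proof. If `κ(A) ≥ 0` then `K_X` is pseudo-effective, and by the theorem of helper260 on towers over products
(`Pool/Agent/Run7/h260/TW/Prd.lean`, `MP_9a2ae6_ag.ImagesOfProductTowers`) `κ(X) ≥ dim X - 1`. That `κ(A) = dim X`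
implies `κ(X) = dim X` is Kodaira's lemma, in the form of the starting file `Pool/Agent/N162/GQ/CP.lean`. The
starting files have the theorem for the varieties dominated by one product `V × C`
(`CompleteIntersectionTimesCurve`); new are the towers, products of several factors, hypersurfaces and
coverings of varieties of low degree, and towers over uniruled varieties.
-/

set_option autoImplicit false

open FF Pool.Agent.W602.GT
open Pool.Agent.N162.GQ (DivKodGe PsefRest)
open Pool.Agent.Run7.h260.TW (ProductTower)

namespace Pool.Agent.Results.MP_370cf3_ag.ImagesOfProductTowers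

/-- **The conjecture of Campana and Peternell for the images of towers over products.** Let `K` be the
function field of the first variety `V` of a tower of dimension `n + 1` with the bound `2 [K : L]`, over a
product of varieties of low degree, curves of large gonality and an arbitrary curve, over a smooth
hypersurface or a covering of a variety of low degree, or over a uniruled variety, where `L ⊆ K` is the
function field of `W`. Let `a` be the function of the multiplicities of a divisor `A` along the prime
divisors over `W`. If `q K - A` is pseudo-effective for some `q ≥ 1` and `κ(A) ≥ l` then `κ(W) ≥ l`. -/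
theorem result {n : ℕ} {K : Type} [Field K] [Algebra ℂ K] [Algebra.EssFiniteType ℂ K]
    (hK : Algebra.trdeg ℂ K = (n + 1 : ℕ)) (L : Type) [Field L] [Algebra ℂ L] [Algebra L K]
    [IsScalarTower ℂ L K] [FiniteDimensional L K]
    (h : ProductTower 3 (n + 1) K (2 * Module.finrank L K))
    (q : ℕ) (a : Place ℂ L → ℤ) (hq : 1 ≤ q) (ha : PsefRest L (n + 1) q a)
    (l : ℕ) (hl : DivKodGe L (n + 1) a l) : KodGe ℂ L (n + 1) (fun _ => False) l := by
  haveI hess : Algebra.EssFiniteType ℂ L := Pool.Agent.TH466.QG.ess_below (K := K)
  have hL : Algebra.trdeg ℂ L = (n + 1 : ℕ) := Pool.Agent.Y184.NT.trdeg_below (K := K) hK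
  have h1 := Pool.Agent.Run7.h260.TW.ptower_dich L (Nat.succ_le_succ (Nat.zero_le n)) hK le_rfl
    le_rfl h
  have h2 : Psef ℂ L (n + 1) (fun _ => False) ↔ KodGe ℂ L (n + 1) (fun _ => False) (n + 1 - 1) :=
    h1.out 0 1
  exact Pool.Agent.N162.GQ.cp_of_dich hL hq (fun hp => h2.1 hp) ha hl

end Pool.Agent.Results.MP_370cf3_ag.ImagesOfProductTowers
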