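import Pool.Agent.Run7.h72.Final
import Pool.Agent.N162.GQ.CP

/-!
# The conjecture of Campana and Peternell for the images of the product of a variety and a curve

Let `X` be a smooth projective variety over `ℂ` of dimension `n` and `C` a smooth projective curve of
any genus. Let `X × C ⇢ W` be a dominant rational map of finite degree to a smooth projective variety
`W`. It need not be related to the product structure, and it need not be the quotient by a group. Let
`d` be the number of different points of `X` below a general fibre of `X × C ⇢ W`, i.e. the degree over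
`W` of the image of `X × C` in `W × X`; it is at most the degree of `X × C ⇢ W`, which may be arbitrarily
large.

Suppose that `N K_X - M H` is effective, where `H` is a linear system which defines a birational map
(or at least separates the points of `X` below a general fibre), and `M > 2 N (d - 1)`. More generally
one can use linear systems `H i` on `X` which separate these points one after the other: then `d` is
replaced by the degrees `d i` of the steps, `N K_X - ∑ M i H i` is effective and `M i > 2 N (d i - 1)`.
Let `h` be the dimension of the image of `X` under the map given by the `H i`.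

**Theorem.** Let `A` be a divisor on `W` (or on a blow-up of `W`) and `r ≥ 1` such that `r K_W - A` is
pseudo-effective, and `κ(A) ≥ 0`. Then `κ(W) ≥ min (κ(A), h)`. If `h = n` then `κ(W) ≥ κ(A)`.

So for `h = n` the question Q1 has a positive answer for all these `W`: if `K_W ∼ A + B` (over `ℚ`) with
`A` effective and `B` pseudo-effective then `κ(W) ≥ κ(A)`. There is no condition on the canonical forms
of `X`: one only needs pluricanonical forms, and `p_g(X) = 0` is possible; then there are no canonical
forms on `X × C`. There is no condition on the irregularity. Example: `X` is a resolution of the quotient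
of the product of three hyperelliptic curves of the genera `g i` by the diagonal involution, `H i` the
three projections to the projective line, `N = 2` and `M i = 2 (g i - 1)`.

Proof. If `κ(A) ≥ 0` then `K_W` is pseudo-effective, and by `MP_e06174_ag.PluricanonicalTimesCurve`
`κ(W) ≥ h`: otherwise `W` is uniruled. For `h = n` it remains to see that `κ(A) = n + 1` implies
`κ(W) = n + 1`; this is a form of Kodaira's lemma, see `Pool/Agent/N162/GQ/CP.lean` (starting tree).
-/

set_option autoImplicit false
set_option linter.overlappingInstances false
set_option maxHeartbeats 4000000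
set_option synthInstance.maxHeartbeats 400000

open FF Module IntermediateField Pool.Agent Pool.Agent.W602.GT Run7.h72
open Pool.Agent.N162.GQ (DivKodGe PsefRest)

namespace Pool.Agent.Results.MP_370cf3_ag.ImagesOfTimesCurve

/-- **The conjecture of Campana and Peternell for the images of `X × C`.** Let `K` be the function field
of `X × C`, i.e. the compositum of the function fields `E` of the variety `X` of dimension `n` and `C` of
the curve, of transcendence degree `n + 1`. Let `L ⊆ K` be the function field of a variety `W` such
that the extension is finite. Let `x i` (`i < c`) be families of rational functions on `X`, each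
containing `1`, with `L(x 0, …, x (c - 1)) = L(E)`, let `L_i = L(x 0, …, x (i - 1))` (this is
`Lv L x i`), and let `h` of these functions be algebraically independent. Suppose that there are
`N > 0`, `M i` and a nonzero `N`-canonical form `ψ` on `X` such that all products of `ψ` with
`∏ (x i (f i)) ^ M i` are regular, and `M i > 2 N ([L_{i + 1} : L_i] - 1)`. Let `A` be the function of the
multiplicities of a divisor along the prime divisors over `W`, let `r K - A` be pseudo-effective for
some `r ≥ 1` and `κ(A) ≥ l`. Then `κ(W) ≥ min (l, h)`, and if `h = n` then `κ(W) ≥ l`. -/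
theorem result (K : Type) [Field K] [Algebra ℂ K] [Algebra.EssFiniteType ℂ K] (n : ℕ)
    (E C : IntermediateField ℂ K) [Algebra.EssFiniteType ℂ E] [IsFF ℂ C] (hEC : E ⊔ C = ⊤)
    (hE : Algebra.trdeg ℂ E = n) (hK : Algebra.trdeg ℂ K = (n + 1 : ℕ)) (L : Type) [Field L]
    [Algebra ℂ L] [Algebra L K] [IsScalarTower ℂ L K] [FiniteDimensional L K] {c : ℕ}
    {m : Fin c → ℕ} (x : ∀ i, Fin (m i + 1) → E) (hx : ∀ i, x i 0 = 1)
    (hgen : Lv L (fun i b => (x i b : K)) c = IntermediateField.adjoin L (E : Set K)) {N : ℕ}
    (hN : 0 < N) (M : Fin c → ℕ)
    (hM : ∀ i : Fin c, 2 * N * (finrank L (Lv L (fun i b => (x i b : K)) (i + 1)) -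
      finrank L (Lv L (fun i b => (x i b : K)) i)) <
      M i * finrank L (Lv L (fun i b => (x i b : K)) i))
    {ψ : (Fin n → Derivation ℂ E E) → E} (hψ0 : ∃ D, ψ D ≠ 0)
    (hψ : ∀ f : ∀ i, Fin (m i + 1),
      LogSec ℂ E n N (fun _ => False) fun D => (∏ i, x i (f i) ^ M i) * ψ D)
    {h : ℕ} (s : Fin h → Σ i, Fin (m i + 1))
    (hs : AlgebraicIndependent ℂ fun l => x (s l).1 (s l).2) {r : ℕ} (hr : 1 ≤ r)
    (A : Place ℂ L → ℤ) (hA : PsefRest L (n + 1) r A) (l : ℕ) (hl : DivKodGe L (n + 1) A l) :
    KodGe ℂ L (n + 1) (fun _ => False) (min l h) ∧
    (h = n → KodGe ℂ L (n + 1) (fun _ => False) l) := by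
  have hL : Algebra.trdeg ℂ L = (n + 1 : ℕ) := Pool.Agent.Y184.NT.trdeg_below (K := K) hK
  have hM' : ∀ i : Fin c, 2 * (finrank L (Lv L (fun i b => (x i b : K)) (i + 1)) -
      finrank L (Lv L (fun i b => (x i b : K)) i)) * N <
      M i * finrank L (Lv L (fun i b => (x i b : K)) i) := fun i => by
    have h1 := hM i
    have e1 : 2 * N * (finrank L (Lv L (fun i b => (x i b : K)) (i + 1)) -
        finrank L (Lv L (fun i b => (x i b : K)) i)) =
        2 * (finrank L (Lv L (fun i b => (x i b : K)) (i + 1)) -
        finrank L (Lv L (fun i b => (x i b : K)) i)) * N := by ring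
    rwa [e1] at h1
  obtain ⟨h1, h2⟩ := nonvan hEC hE hK x hx hgen hN M hM' hψ0 hψ s hs
  have hdich : Psef ℂ L (n + 1) (fun _ => False) → KodGe ℂ L (n + 1) (fun _ => False) h := by
    intro hp
    refine h2 ?_
    by_contra h3
    have h4 : ¬ Psef ℂ L (n + 1) (fun _ => False) := (h1.out 0 1).1 h3
    exact h4 hp
  have hl0 : DivKodGe L (n + 1) A 0 := by
    obtain ⟨m', hm, f, hf0, hf, -⟩ := hl
    exact ⟨m', hm, fun i => f (Fin.castLE (by omega) i), hf0, fun i => hf _,
      algebraicIndependent_empty_type_iff.2 (algebraMap ℂ L).injective⟩
  refine ⟨kodGe_mono (min_le_right l h)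
    (hdich (Pool.Agent.N162.GQ.psef_of_rest hr hA hl0)), ?_⟩
  rintro rfl
  exact Pool.Agent.N162.GQ.cp_of_dich hL hr hdich hA hl

end Pool.Agent.Results.MP_370cf3_ag.ImagesOfTimesCurve
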