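import Pool.Agent.Run7.h546.NL.CP

/-!
MP_370cf3_ag, Q1: the inequality of Campana and Peternell, `κ(D) ≤ κ(K_X + Δ)` if `D` is effective and
`K_X + Δ - D` is pseudo-effective, for log canonical pairs `(X, Δ)` on the projective models of the
quasi-projective varieties given by nested sums of high powers of monomials, for instance

`∑ i, (∑ j, x_{ij} ^ e_1) ^ e_2 = 0`, `x_{ij} ≠ 0` for some of the `(i, j)`,

and of components of arbitrary intersections of such hypersurfaces. In particular, let `(X, B)` be a
smooth projective variety with a reduced divisor with normal crossings such that `X \ B` is a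
resolution of such a quasi-projective variety `V`, and `K_X + B ∼ A + P` with `A` effective and `P`
pseudo-effective; then the logarithmic Kodaira dimension of `V` is at least `κ(A)`. If `B = 0` then `V` is
projective and `κ(X)` is `-∞` or `dim X` (starting result `MP_e06174_ag.NestedUniruled`), and the
inequality is clear; for `B ≠ 0`, and for klt pairs, all values of the Kodaira dimension occur.

`NestedIn IsMono s M H G` (`Pool/Agent/TH710/ND/Dich.lean`): the form `G` is a sum of at most `s` terms
`c g ^ e`, `M ≤ e`, where the `g` are monomials or sums of at most `s` such terms of the next level, and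
so on, with at most `H + 1` levels; the exponents and the numbers of summands are the same for all sums
of one level. `SubVarU`, `IsComponentU`: `K` is the function field, `z` the generic point, and `w` the
dimension of an irreducible component `V` of `{F = 0, x_j ≠ 0 for j in U}`. `OffU U z P`: the centre of
the prime divisor `P` lies on one of the hyperplanes `x_j = 0`, `j` in `U` (never, if `U` is empty).

`NormalModel y` (`Pool/Agent/Y172/Defs.lean`): `y` is the generic point, in homogeneous coordinates,
of a normal projective variety `X` with function field `K`, so `X` is any normal projective variety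
birational to `V`. `Effective y Δ`, `LogCanonical y w Δ`: `Δ ≥ 0` is a `ℚ`-divisor on `X` such that
the pair `(X, Δ)` is log canonical. `LogDisc y w Δ Q α` (`Pool/Agent/Y191/Disc.lean`): the log
discrepancy of `(X, Δ)` along the prime divisor `Q` over `X` is at least `α`. `kodairaDim y w Δ` is
the Kodaira dimension of `K_X + Δ`.

`PsefSub y w Δ D` (`Pool/Agent/Y191/CorCP.lean`): `K_X + Δ - D` is pseudo-effective; precisely, for some
effective divisor `H₀` and some `m₁ ≥ 1`, all the divisors `t m₁ (K_X + Δ - D) + H₀`, `t ≥ 1`, have a nonzero
section. `IitakaGe y D j`: the Iitaka dimension of the `ℚ`-divisor `D` is at least `j`.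

`Contracts U ℂ z b`, `Acts U ℂ z b` (`Pool/Agent/W602/GT/KStm.lean`): `t ↦ diag (t ^ b_j)`, `b ≥ 0`,
defines a map from the product of the affine line and an open part of `V` to `V`, so `V` is covered by
affine lines; this one-parameter group acts on `V`. `OverCoord z Q`, `Tangent z b Q`
(`Pool/Agent/N133/PC8.lean`): the centre of `Q` lies on a coordinate hyperplane of the projective
space of `V`; `Q` is invariant under the one-parameter group.

The proof. The inequality follows from `κ(K_X + Δ) = ν(K_X + Δ)`: products of the sections of multiples
of `D` with the sections of the `t m₁ (K_X + Δ - D) + H₀` are sections of `t m₁ (K_X + Δ) + H₀`, and the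
number of these is at most `C t ^ ν`. The upper bound of the numerical dimension and the formula for the
Kodaira dimension are those of our result `MP_e23cd6_ag.NestedLcPairs`.
-/

set_option autoImplicit false

namespace Pool.Agent.Results.MP_370cf3_ag.NestedMonomialPairs

open FF Pool.Agent.W602.GT Pool.Agent.N133.PC
open Pool.Agent.TH710.ND (NestedIn IsMono)
open Pool.Agent.Y172 (NormalModel IsPrimeDivisor Effective LogCanonical kodairaDim)
open Pool.Agent.Y191 (LogDisc PsefSub IitakaGe)

/-- **The Campana-Peternell inequality.** Let `V` be an irreducible component, of dimension `w`, of the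
open part `x_j ≠ 0`, `j` in `U`, of a projective variety in `P^n` given by (any number of) nested sums of
powers of monomials with at most `H + 1` levels and at most `s` summands at each of them, the exponents
being at least `(2 n + 2) (H + 1) (2 s + 1) ^ 5`. Let `(X, Δ)` be any projective log canonical pair, `X`
birational to `V`, such that the prime divisors of `X` over the hyperplanes `x_j = 0`, `j` in `U`, have
coefficients (at least) `1`, the other prime divisors over `X` have positive log discrepancies (so
`(X, Δ)` is any klt pair if `U` is empty), and each prime divisor over `X` with negative discrepancy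
lies over a coordinate hyperplane or is invariant under the one-parameter groups of diagonal matrices
which act on `V`. Let `D` be an effective `ℚ`-divisor on `X` such that `K_X + Δ - D` is
pseudo-effective. Then `V` is not covered by affine lines `t ↦ (t ^ b_j x_j)`, and
`κ(D) ≤ κ(K_X + Δ)`. -/
theorem result {n : ℕ} {ι : Type} {U : Set (Fin (n + 1))} {F : ι → MvPolynomial (Fin (n + 1)) ℂ}
    {s H M : ℕ} (hF : ∀ e, IsForm (F e) ∧ NestedIn IsMono s M H (F e))
    (hM : (2 * n + 2) * ((H + 1) * (2 * s + 1) ^ 5) ≤ M) {K : Type} [Field K] [Algebra ℂ K] {w : ℕ}
    {z : Fin (n + 1) → K} (hz : SubVarU U F K w z) (hcomp : IsComponentU U F z) {N : ℕ}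
    {y : Fin (N + 1) → K} (hy : NormalModel y) (Δ : Place ℂ K → ℚ) (hΔ : Effective y Δ)
    (hLC : LogCanonical y w Δ)
    (hone : ∀ P, IsPrimeDivisor y P → OffU U z P → 1 ≤ Δ P)
    (hklt : ∀ Q, Divisorial w Q → ¬ OffU U z Q → ∃ α > 0, LogDisc y w Δ Q α)
    (hcan : ∀ Q, Divisorial w Q → LogDisc y w Δ Q 1 ∨ OverCoord z Q ∨
      ∀ b, Acts U ℂ z b → Tangent z b Q)
    (D : Place ℂ K → ℚ) (hD : Effective y D) (hps : PsefSub y w Δ D) :
    (¬ ∃ b, Contracts U ℂ z b) ∧
      ∀ j : ℕ, IitakaGe y D j → (j : WithBot ℕ) ≤ kodairaDim y w Δ :=
  Pool.Agent.Run7.h546.NL.nested_cp hF hM hz hcomp hy hΔ hLC hone hklt hcan hD hps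

end Pool.Agent.Results.MP_370cf3_ag.NestedMonomialPairs
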